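import Pool.Agent.SZG.StmtsY

/-!
# Squad SZG, row XNE
-/

set_option autoImplicit false

namespace Pool.Agent.SZG.H62

open scoped BigOperators
open Pool.Agent.THS Pool.Agent.SZG

/-- integer relations between the periods are trivial -/
theorem periods_indep {g : ℕ} {τ : Matrix (Fin g) (Fin g) ℂ} (hτ : Siegel τ)
    (a b : Fin g → ℤ) (h : ∀ i, (a i : ℂ) + ∑ j, τ i j * (b j : ℂ) = 0) :
    a = 0 ∧ b = 0 := by
  have hb : b = 0 := by
    by_contra hb
    have hv : (fun j => (b j : ℝ)) ≠ 0 := by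
      intro hv
      apply hb
      funext j
      have := congrFun hv j
      simpa using this
    have h1 := hτ.2.dotProduct_mulVec_pos hv
    have h2 : (τ.map Complex.im).mulVec (fun j => (b j : ℝ)) = 0 := by
      funext i
      have h3 := congrArg Complex.im (h i)
      rw [Complex.add_im, Complex.intCast_im, zero_add, Complex.im_sum, Complex.zero_im] at h3
      rw [Pi.zero_apply, ← h3]
      unfold Matrix.mulVec dotProduct
      apply Finset.sum_congr rfl
      intro j _
      show (τ i j).im * (b j : ℝ) = (τ i j * (b j : ℂ)).im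
      rw [Complex.mul_im, Complex.intCast_im, Complex.intCast_re, mul_zero, zero_add]
    rw [h2, dotProduct_zero] at h1
    exact lt_irrefl _ h1
  refine ⟨?_, hb⟩
  funext i
  have h1 := h i
  rw [hb] at h1
  simpa using h1

theorem xne (h1 : THS.ThdStatement) (h2 : THS.PrpStatement) (h3 : THS.HxbStatement) :
    XneStmt := by
  intro g K _ _ φ τ hτ z l hl x hx hφ p q hpq
  have hl0 : (l : ℂ) ≠ 0 := by exact_mod_cast hl.ne'
  obtain ⟨z', hz'⟩ : ∃ z' : Fin g → ℂ, z' = fun i => ((p i : ℂ) + ∑ j, τ i j * (q j : ℂ)) / l :=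
    ⟨_, rfl⟩
  have hlz : ∀ i, (l : ℂ) * z' i = (p i : ℂ) + ∑ j, τ i j * (q j : ℂ) := by
    intro i
    rw [hz']
    field_simp
  obtain ⟨x', hx'⟩ : ∃ x' : ℤ → (Fin g → ZMod 2) × (Fin g → ZMod 2) → K,
      x' = fun k => x (0, fun i => k * p i, fun i => k * q i) := ⟨_, rfl⟩
  have hne : ∀ k, x' k ≠ 0 := by
    intro k
    rw [hx']
    exact hx _
  have hμ : ∀ k : ℤ, ∃ μ : ℂ, ∀ ab, φ (x' k ab) = μ * Vab τ ab.1 ab.2 (fun i => (k : ℂ) * z' i) := by
    intro k
    obtain ⟨μ, h⟩ := hφ (0, fun i => k * p i, fun i => k * q i)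
    refine ⟨μ, fun ab => ?_⟩
    rw [hx']
    have e : gam τ z l (0, fun i => k * p i, fun i => k * q i) = fun i => (k : ℂ) * z' i := by
      funext r
      unfold gam
      rw [hz']
      show ((0 : ℤ) : ℂ) * z r + (((k * p r : ℤ) : ℂ) + ∑ j, τ r j * ((k * q j : ℤ) : ℂ)) / (l : ℂ) =
        (k : ℂ) * (((p r : ℂ) + ∑ j, τ r j * (q j : ℂ)) / l)
      have e2 : ∑ j, τ r j * ((k * q j : ℤ) : ℂ) = (k : ℂ) * ∑ j, τ r j * (q j : ℂ) := by
        rw [Finset.mul_sum]
        apply Finset.sum_congr rfl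
        intro j _
        push_cast
        ring
      rw [e2]
      push_cast
      ring
    rw [← e]
    exact h ab
  obtain ⟨α, β, T, hT, hM⟩ := h1 g K φ τ hτ z' l p q hl hlz x' hne hμ
  have x1 : x' 1 = x (0, p, q) := by
    rw [hx']
    show x (0, fun i => 1 * p i, fun i => 1 * q i) = x (0, p, q)
    simp only [one_mul]
  have x0 : x' 0 = x 0 := by
    rw [hx']
    show x (0, fun i => 0 * p i, fun i => 0 * q i) = x 0
    simp only [zero_mul]
    rfl
  constructor
  · by_contra hno
    push Not at hno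
    have hx0 : x 0 ≠ 0 := hx 0
    obtain ⟨cd, hcd⟩ : ∃ cd, x 0 cd ≠ 0 := by
      by_contra hn
      push Not at hn
      exact hx0 (funext hn)
    have hprop : ∀ ab, x' 1 ab = (x (0, p, q) cd / x 0 cd) * x' 0 ab := by
      intro ab
      rw [x1, x0]
      have h4 := hno ab cd
      field_simp
      linear_combination h4
    obtain ⟨r, hr⟩ := h2 K g l α β T x' hT.toNSeq 0 1 _ hprop
    obtain ⟨P, Q, hPQ⟩ := hM 1 r (by
      intro c
      have := hr c
      rw [sub_zero] at this
      exact_mod_cast this)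
    have key : ∀ i, (((fun i => p i - (l : ℤ) * P i) i : ℤ) : ℂ) +
        ∑ j, τ i j * (((fun j => q j - (l : ℤ) * Q j) j : ℤ) : ℂ) = 0 := by
      intro i
      have h4 := hPQ i
      have h5 := hlz i
      rw [Nat.cast_one, one_mul] at h4
      rw [h4] at h5
      have e2 : ∑ j, τ i j * ((q j - (l : ℤ) * Q j : ℤ) : ℂ) =
          ∑ j, τ i j * (q j : ℂ) - (l : ℂ) * ∑ j, τ i j * (Q j : ℂ) := by
        rw [Finset.mul_sum, ← Finset.sum_sub_distrib]
        apply Finset.sum_congr rfl
        intro j _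
        push_cast
        ring
      show ((p i - (l : ℤ) * P i : ℤ) : ℂ) + ∑ j, τ i j * ((q j - (l : ℤ) * Q j : ℤ) : ℂ) = 0
      rw [e2]
      push_cast
      linear_combination -h5
    obtain ⟨k1, k2⟩ := periods_indep hτ _ _ key
    obtain ⟨i, hi⟩ := hpq
    have g1 : p i = (l : ℤ) * P i := by
      have := congrFun k1 i
      simp only [Pi.zero_apply] at this
      omega
    have g2 : q i = (l : ℤ) * Q i := by
      have := congrFun k2 i
      simp only [Pi.zero_apply] at this
      omega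
    rcases hi with hi | hi
    · exact hi ⟨P i, g1⟩
    · exact hi ⟨Q i, g2⟩
  · have h4 := h3 K g l α β T x' hT.toNSeq 1
    rw [x1, x0] at h4
    exact h4

end Pool.Agent.SZG.H62
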