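import Pool.Agent.SZG.StmtsR

/-!
# Squad SZG, row RAL: the algebra of step (6)
-/

set_option autoImplicit false

namespace Pool.Agent.SZG.H62

open scoped BigOperators
open Pool.Agent.THS (Short nv qv sgn)

theorem v_eq_one {K : Type} [Field K] {v : AbsoluteValue K ℝ} (hv : IsNonarchimedean v) {θ : ℝ}
    (hθ : θ < 1) {x : K} (h : v (x - 1) ≤ θ) : v x = 1 := by
  have h1 : v x ≤ 1 := by
    have h2 := hv (x - 1) 1
    rw [sub_add_cancel, map_one] at h2
    exact h2.trans (max_le (by linarith) le_rfl)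
  by_contra hne
  have h3 : v x < 1 := lt_of_le_of_ne h1 hne
  have h4 := hv x (-(x - 1))
  rw [show x + -(x - 1) = 1 by ring, map_one, v.map_neg] at h4
  have h5 : max (v x) (v (x - 1)) < 1 := max_lt h3 (by linarith)
  linarith

/-- **Row RAL**. -/
theorem ral (hSwc : SwcStmt) (hInv : InvStmt) (hZks : ZksStmt) : RalStmt := by
  intro c g L
  obtain ⟨c1, hc1⟩ := hInv c L
  refine ⟨Fintype.card ((Fin g → ZMod 2) × (Fin g → ZMod 2)) * 1 * (2 * L) * c1, ?_⟩
  intro K _ v θ o U V X Y s0 κ ρ η ξ τ f χ ω hv hv2 hθ0 hθ1 hκ hρ hη hξ hτ hχ hω h1 h2 h3 hρη hf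
    hfs a
  obtain ⟨w1, w2, w3, -⟩ := hSwc K v χ ω hv hχ hω
  have hL : 0 ≤ θ ^ L := by positivity
  have hvf : ∀ k s, v (f k s) = 1 := fun k s => v_eq_one hv hθ1 (hf k s)
  have hf0 : ∀ k s, f k s ≠ 0 := by
    intro k s h0
    have := hvf k s
    rw [h0, map_zero] at this
    exact zero_ne_one this
  have hζ : v (ρ / η) = 1 := v_eq_one hv hθ1 hρη
  have h20 : (2 : K) ≠ 0 := by
    intro h0
    rw [h0, map_zero] at hv2
    exact zero_ne_one hv2
  have h2g : (2 : K) ^ g ≠ 0 := pow_ne_zero _ h20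
  have hsgn : ∀ b d : Fin g → ZMod 2, v ((sgn b d : ℤ) : K) = 1 := by
    intro b d
    unfold sgn
    rw [Int.cast_pow, Int.cast_neg, Int.cast_one, map_pow, v.map_neg, map_one, one_pow]
  set P : (Fin g → ZMod 2) × (Fin g → ZMod 2) → ℤ → K := fun q k =>
    if o k = q.1 then ((2 : K) ^ g)⁻¹ * (sgn q.2 q.1 : K) *
      (s0 * X k (a + q.1, q.2) * ξ ^ (-k) * (τ k)⁻¹) else 0 with hP
  set Q : (Fin g → ZMod 2) × (Fin g → ZMod 2) → ℤ → K := fun q s =>
    Y s (a + q.1, q.2) * κ ^ (-(s ^ 2)) with hQ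
  have hPQ : ∀ q k s, v (P q k) * v (Q q s) ≤ χ k * ω s := by
    intro q k s
    by_cases hq : o k = q.1
    · have e1 : v (P q k) = v (s0 * X k (a + q.1, q.2) * ξ ^ (-k) * (τ k)⁻¹) := by
        rw [hP]
        simp only [if_pos hq]
        rw [map_mul, map_mul, map_inv₀, map_pow, hv2, one_pow, inv_one, hsgn, one_mul, one_mul]
      rw [e1]
      exact h3 (a + q.1, q.2) k s
    · have e1 : v (P q k) = 0 := by
        rw [hP]
        simp only [if_neg hq]
        exact map_zero v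
      rw [e1, zero_mul]
      exact mul_nonneg (hχ k) (hω s)
  have s1 : ∀ q, SW v 1 (θ ^ L) χ ω (fun k s => P q k * Q q s) := fun q =>
    w1 (P q) (Q q) (θ ^ L) hL (hPQ q)
  have s2 := w2 _ 1 (θ ^ L) ((Fin g → ZMod 2) × (Fin g → ZMod 2))
    (fun q k s => P q k * Q q s) rfl hL s1
  have s3 := w3 _ _ (θ ^ L) _ (fun k s => (ρ / η) ^ (k * s)) hL (by
    intro k s
    rw [map_zpow₀, hζ, one_zpow]) s2 (hZks K v θ L (ρ / η) hv hθ0 hθ1 hρη)
  have s4 := w3 _ _ (θ ^ L) _ (fun k s => (f k s)⁻¹) hL (by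
    intro k s
    rw [map_inv₀, hvf, inv_one]) s3 (hc1 K v θ f hv hθ0 hθ1 hf hfs)
  have key : (fun k s => ξ ^ (-k) * η ^ (-(k * s)) * U a k s) =
      (fun k s => (∑ q, P q k * Q q s) * (ρ / η) ^ (k * s) * (f k s)⁻¹) := by
    funext k s
    have e1 : (∑ q, P q k * Q q s) = ∑ b : Fin g → ZMod 2,
        ((2 : K) ^ g)⁻¹ * (sgn b (o k) : K) *
          (s0 * X k (a + o k, b) * ξ ^ (-k) * (τ k)⁻¹) *
          (Y s (a + o k, b) * κ ^ (-(s ^ 2))) := by
      rw [Fintype.sum_prod_type, Finset.sum_eq_single (o k)]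
      · apply Finset.sum_congr rfl
        intro b _
        rw [hP, hQ]
        simp only [if_true]
      · intro o' _ ho'
        apply Finset.sum_eq_zero
        intro b _
        rw [hP]
        simp only [if_neg (Ne.symm ho'), zero_mul]
      · intro h
        exact absurd (Finset.mem_univ _) h
    have e2 : (∑ q, P q k * Q q s) = ((2 : K) ^ g)⁻¹ * ξ ^ (-k) * (τ k)⁻¹ * κ ^ (-(s ^ 2)) *
        ∑ b : Fin g → ZMod 2, (sgn b (o k) : K) *
          (s0 * X k (a + o k, b) * Y s (a + o k, b)) := by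
      rw [e1, Finset.mul_sum]
      apply Finset.sum_congr rfl
      intro b _
      ring
    rw [e2, ← h1 a (o k) k s, h2 k s, div_zpow, zpow_neg, zpow_neg, zpow_neg, zpow_neg]
    have a1 : κ ^ (s ^ 2) ≠ 0 := zpow_ne_zero _ hκ
    have a2 : ρ ^ (k * s) ≠ 0 := zpow_ne_zero _ hρ
    have a3 : η ^ (k * s) ≠ 0 := zpow_ne_zero _ hη
    have a4 : ξ ^ k ≠ 0 := zpow_ne_zero _ hξ
    have a5 := hτ k
    have a6 := hf0 k s
    field_simp
  rw [key]
  exact s4

end Pool.Agent.SZG.H62
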